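import Pool.Agent.Helper34.FF.Goals1

/-! MP_7cb822_co, packet NoCut. -/

namespace Pool.Agent.Helper89.FF

open Finset Pool.Agent.Helper34.FF
open scoped symmDiff Classical

theorem card_on {V F : Type} [Fintype V] [Fintype F] (T : Tri V F) {e : Sym2 V}
    (he : e ∈ T.G.edgeSet) : (univ.filter fun f => T.on e f).card = 2 := by
  induction e with
  | _ a b =>
    have h : (univ.filter fun f => T.on s(a, b) f) =
        (univ.filter fun f => a ∈ T.tri f ∧ b ∈ T.tri f) := by
      ext f
      simp [Tri.on]
    rw [h]
    exact T.two a b he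

theorem pf_StmtNoCut : Pool.Agent.Helper34.FF.StmtNoCut := by
  intro V F _ _ T X Y hX hY
  have key : T.bdry (X ∩ Y) ⊆ T.bdry X := by
    intro e he
    unfold Tri.bdry at he ⊢
    rw [mem_filter] at he ⊢
    obtain ⟨_, hed, h1⟩ := he
    refine ⟨mem_univ _, hed, ?_⟩
    have h2 := card_on T hed
    have h3 : (X.filter fun f => T.on e f).card ≤ 2 := by
      rw [← h2]
      exact card_le_card (filter_subset_filter _ (subset_univ _))
    have h4 : 1 ≤ (X.filter fun f => T.on e f).card := by
      rw [← h1]
      exact card_le_card (filter_subset_filter _ inter_subset_left)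
    by_contra hne
    have h5 : (X.filter fun f => T.on e f).card = 2 := by omega
    have h6 : (X.filter fun f => T.on e f) = (univ.filter fun f => T.on e f) :=
      eq_of_subset_of_card_le (filter_subset_filter _ (subset_univ _)) (by rw [h2, h5])
    apply hY e
    · unfold Tri.bdry
      rw [mem_filter]
      refine ⟨mem_univ _, hed, ?_⟩
      have h7 : (Y.filter fun f => T.on e f) = ((X ∩ Y).filter fun f => T.on e f) := by
        ext f
        rw [mem_filter, mem_filter, mem_inter]
        constructor
        · rintro ⟨h8, h9⟩
          have h10 : f ∈ (X.filter fun f => T.on e f) := by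
            rw [h6, mem_filter]
            exact ⟨mem_univ _, h9⟩
          exact ⟨⟨(mem_filter.1 h10).1, h8⟩, h9⟩
        · rintro ⟨⟨_, h8⟩, h9⟩
          exact ⟨h8, h9⟩
      rw [h7]
      exact h1
    · unfold Tri.inn
      rw [mem_filter]
      exact ⟨mem_univ _, hed, h5⟩
  rcases hX.2 _ inter_subset_left key with h | h
  · right
    exact disjoint_iff_inter_eq_empty.2 h
  · left
    exact inter_eq_left.1 h

end Pool.Agent.Helper89.FF
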