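import Pool.Agent.Helper34.FF.Goals1

/-! MP_7cb822_co, packet OneSaved. -/

namespace Pool.Agent.Helper89.FF

open Finset Pool.Agent.Helper34.FF
open scoped symmDiff Classical

theorem pf_StmtOneSaved : Pool.Agent.Helper34.FF.StmtOneSaved := by
  intro V _ G v hV
  obtain ⟨y, hy⟩ := Fintype.exists_ne_of_one_lt_card (by omega : 1 < Fintype.card V) v
  let σ : ℕ → Finset V := fun t => if t = 1 then {y} else ∅
  have hσ1 : σ 1 = {y} := if_pos rfl
  have hσ : ∀ t, t ≠ 1 → σ t = ∅ := fun t ht => if_neg ht
  have hnot : ∀ t, y ∉ burn G v σ t := by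
    intro t
    induction t with
    | zero =>
      unfold burn
      rw [mem_singleton]
      exact hy
    | succ t ih =>
      unfold burn
      rw [mem_union, not_or]
      refine ⟨ih, ?_⟩
      rw [mem_filter]
      rintro ⟨_, h1, _⟩
      apply h1
      unfold prot
      rw [mem_biUnion]
      refine ⟨1, mem_Icc.2 ⟨le_rfl, by omega⟩, ?_⟩
      rw [hσ1]
      exact mem_singleton_self y
  have hL : Legal G 2 v σ := by
    intro t ht
    by_cases h : t = 1
    · subst h
      rw [hσ1]
      refine ⟨by rw [card_singleton]; omega, ?_⟩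
      rw [disjoint_singleton_left]
      exact hnot _
    · rw [hσ t h]
      exact ⟨by rw [card_empty]; omega, disjoint_empty_left _⟩
  have hs : 1 ≤ (saved G v σ).card := by
    rw [Nat.one_le_iff_ne_zero, ← Nat.pos_iff_ne_zero, card_pos]
    refine ⟨y, ?_⟩
    unfold saved
    rw [mem_filter]
    exact ⟨mem_univ _, hnot⟩
  refine hs.trans ?_
  unfold sn
  apply le_csSup
  · refine ⟨Fintype.card V, ?_⟩
    rintro m ⟨τ, _, rfl⟩
    exact card_le_univ _
  · exact ⟨σ, hL, rfl⟩

end Pool.Agent.Helper89.FF
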